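import Pool.Agent.Helper74.PB.XFIa
import Pool.Agent.Helper32.RD.VAL
import Pool.Agent.Helper42.RD.VAL

set_option autoImplicit false

/-!
# Project B (MP_fc6b1e_nt), packet PB-XFI: the tame first inequality
-/

namespace Pool.Agent.Helper74.PB

open NumberField Polynomial Module IsDedekindDomain
open Pool.Agent.Helper51.RP Pool.Agent.Helper42.PP
open Pool.Agent.Helper76.PB
open Pool.Agent.Helper40.RS (bel)
open Pool.Agent.Helper40.RD (bel_of_above valW)
open Pool.Agent.Helper42.RD (ordv_eq_zero_iff locPow_of_sub)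

section fin

variable {F : Type} [Field F] [NumberField F]

theorem finite_ordv (x : F) (hx : x ≠ 0) :
    {v : HeightOneSpectrum (𝓞 F) | ordv v x ≠ 0}.Finite := by
  have h1 := HeightOneSpectrum.Support.finite (R := 𝓞 F) x
  have h2 := HeightOneSpectrum.Support.finite (R := 𝓞 F) x⁻¹
  refine (h1.union h2).subset ?_
  intro v hv
  have hv' : v.valuation F x ≠ 1 := fun h => hv ((ordv_eq_zero_iff v hx).2 h)
  rcases lt_or_gt_of_ne hv' with h | h
  · right
    show 1 < v.valuation F x⁻¹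
    rw [map_inv₀]
    exact (one_lt_inv₀ (zero_lt_iff.2 ((Valuation.ne_zero_iff _).2 hx))).2 h
  · left
    exact h

theorem hom_one {A : Type} [AddCommGroup A] {f : Fˣ → A} (hf : Hom f) : f 1 = 0 := by
  have h := hf 1 1
  rw [mul_one] at h
  exact left_eq_add.1 h

theorem unit_mono {Y Y' : Set (HeightOneSpectrum (𝓞 F))} (h : Y ⊆ Y') {x : Fˣ}
    (hx : x ∈ Y.unit F) : x ∈ Y'.unit F := fun v hv => hx v fun h1 => hv (h h1)

end fin

/-- A proper set of vectors which is the range of a homomorphism is killed by a nonzero form. -/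
theorem exists_form {p : ℕ} [Fact p.Prime] {G : Type} [AddCommGroup G] {ι : Type} [Fintype ι]
    [DecidableEq ι] (κ : G →+ (ι → ZMod p)) (h : Nat.card κ.range < Nat.card (ι → ZMod p)) :
    ∃ m : ι → ZMod p, m ≠ 0 ∧ ∀ a : G, ∑ i, m i * κ a i = 0 := by
  have hVt : AddSubgroup.toZModSubmodule p κ.range < ⊤ := by
    rw [lt_top_iff_ne_top]
    intro h1
    have h7 : κ.range = ⊤ := by
      rw [AddSubgroup.eq_top_iff']
      intro f
      have h8 : f ∈ AddSubgroup.toZModSubmodule p κ.range := by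
        rw [h1]
        exact Submodule.mem_top
      exact h8
    rw [h7, AddSubgroup.card_top] at h
    exact lt_irrefl _ h
  obtain ⟨f, hf, hf2⟩ := Submodule.exists_le_ker_of_lt_top _ hVt
  refine ⟨fun i => f (Pi.single i 1), ?_, ?_⟩
  · intro h0
    apply hf
    apply LinearMap.pi_ext'
    intro i
    apply LinearMap.ext_ring
    exact congrFun h0 i
  · intro a
    have h7 : f (κ a) = 0 := by
      have h8 : κ a ∈ AddSubgroup.toZModSubmodule p κ.range := ⟨a, rfl⟩
      exact hf2 h8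
    rw [LinearMap.pi_apply_eq_sum_univ f] at h7
    refine (Finset.sum_congr rfl fun i _ => ?_).trans h7
    beta_reduce
    rw [smul_eq_mul, mul_comm]
    congr 2
    funext j
    rw [Pi.single_apply]
    congr 1
    exact propext eq_comm

section main

variable {p : ℕ} [Fact p.Prime] {F E : Type} [Field F] [NumberField F] [Field E] [NumberField E]
    [Algebra F E] [IsGalois F E]

/-- The relation for a finite set of split primes. -/
theorem exists_rel (h1 : X_HQ) (h2 : X_RKS) (h3 : X_H90) (h5 : X_SPC) (hdeg : finrank F E = p)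
    (hc : p = 2 → IsTotallyComplex F) (Z : Set (HeightOneSpectrum (𝓞 F))) (hZf : Z.Finite)
    (hun : UnrZ F E Z) (hpr : PrZ F Z) (N : Finset (HeightOneSpectrum (𝓞 F)))
    (hN : ∀ v, v ∈ N ↔ v ∈ Z ∧ ∃ W : HeightOneSpectrum (𝓞 E), Above W v ∧ ¬ FreeP F W)
    (φ : HeightOneSpectrum (𝓞 F) → Fˣ → ZMod p) (hφ : ∀ v ∈ N, Hom (φ v))
    (hφn : ∀ v ∈ N, ∀ y : Eˣ, φ v (nrm F E y) = 0)
    (D : Finset (HeightOneSpectrum (𝓞 F))) (hD : ∀ v ∈ D, v ∈ SplZ E Z) :
    ∃ m : N → ZMod p, m ≠ 0 ∧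
      ∀ x ∈ (Z ∪ (D : Set (HeightOneSpectrum (𝓞 F)))).unit F, ∑ v : N, m v * φ v.1 x = 0 := by
  classical
  set Y := Z ∪ (D : Set (HeightOneSpectrum (𝓞 F))) with hY
  have hYf : Y.Finite := hZf.union D.finite_toSet
  have hunY : UnrZ F E Y := fun v hv => hun v fun h => hv (Or.inl h)
  have hprY : PrZ F Y := by
    intro n
    obtain ⟨x, hx⟩ := hpr n
    exact ⟨x, fun w hw => hx w fun h => hw (Or.inl h)⟩
  obtain ⟨NU, hidx, hNU⟩ := unit_idx h1 h2 h3 h5 hdeg hc Y hYf hunY hprY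
  have hset : {v | v ∈ Y ∧ ∃ W : HeightOneSpectrum (𝓞 E), Above W v ∧ ¬ FreeP F W} =
      (N : Set (HeightOneSpectrum (𝓞 F))) := by
    ext v
    rw [Finset.mem_coe, hN]
    constructor
    · rintro ⟨hv, W, hW, hWf⟩
      refine ⟨?_, W, hW, hWf⟩
      rcases hv with hv | hv
      · exact hv
      · exfalso
        obtain ⟨-, W', hW', hWf'⟩ := hD v (Finset.mem_coe.1 hv)
        exact hWf ((h5 p F E hdeg).1 v W' W hW' hW hWf')
    · rintro ⟨hv, hW⟩
      exact ⟨Or.inl hv, hW⟩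
  rw [hset, Set.ncard_coe_finset] at hidx
  have hp : p.Prime := Fact.out
  let κ : Additive (Y.unit F) →+ (N → ZMod p) :=
    AddMonoidHom.mk' (fun a v => φ v.1 ((a.toMul : Y.unit F) : Fˣ)) (by
      intro a b
      funext v
      exact hφ v.1 v.2 _ _)
  have hker : NU ≤ κ.ker := by
    intro a ha
    obtain ⟨u, hu⟩ := hNU a ha
    rw [AddMonoidHom.mem_ker]
    funext v
    show φ v.1 ((a.toMul : Y.unit F) : Fˣ) = 0
    rw [← hu]
    exact hφn v.1 v.2 u
  have hNU0 : NU.index ≠ 0 := by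
    intro h0
    rw [h0, zero_mul] at hidx
    exact (pow_pos hp.pos _).ne hidx
  have hd : κ.ker.index ≤ NU.index :=
    Nat.le_of_dvd (Nat.pos_of_ne_zero hNU0) (AddSubgroup.index_dvd_of_le hker)
  have hcard : Nat.card κ.range < Nat.card (N → ZMod p) := by
    rw [← AddSubgroup.index_ker]
    have h7 : Nat.card (N → ZMod p) = p ^ N.card := by
      rw [Nat.card_pi]
      simp
    rw [h7, ← hidx]
    have h9 : 1 < p := hp.one_lt
    have h10 : 0 < NU.index := Nat.pos_of_ne_zero hNU0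
    nlinarith
  obtain ⟨m, hm, hm2⟩ := exists_form κ hcard
  exact ⟨m, hm, fun x hx => hm2 (Additive.ofMul ⟨x, hx⟩)⟩

end main

open Classical in
theorem x_fi (h1 : Pool.Agent.Helper76.PB.X_HQ) (h2 : Pool.Agent.Helper76.PB.X_RKS)
    (h3 : Pool.Agent.Helper76.PB.X_H90) (h4 : Pool.Agent.Helper76.PB.X_LCF)
    (h5 : Pool.Agent.Helper76.PB.X_SPC) : Pool.Agent.Helper76.PB.X_FI := by
  intro p _ F E _ _ _ _ _ _ hdeg hc Z hZf hab hun hpr hsplit
  -- the primes which are not split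
  have hNf : {v | v ∈ Z ∧ ∃ W : HeightOneSpectrum (𝓞 E), Above W v ∧ ¬ FreeP F W}.Finite :=
    hZf.subset fun v hv => hv.1
  obtain ⟨N, hN⟩ : ∃ N : Finset (HeightOneSpectrum (𝓞 F)), ∀ v, v ∈ N ↔
      v ∈ Z ∧ ∃ W : HeightOneSpectrum (𝓞 E), Above W v ∧ ¬ FreeP F W :=
    ⟨hNf.toFinset, fun v => by
      rw [Set.Finite.mem_toFinset]
      rfl⟩
  have hNp : ∀ v ∈ N, v.valuation F (p : F) = 1 := by
    intro v hv
    obtain ⟨-, W, hW, hWf⟩ := (hN v).1 hv
    have e : algebraMap (𝓞 F) F (p : 𝓞 F) = (p : F) := map_natCast (algebraMap (𝓞 F) F) p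
    have hle : v.valuation F (p : F) ≤ 1 := by
      rw [← e]
      exact v.valuation_le_one (K := F) (p : 𝓞 F)
    rcases lt_or_eq_of_le hle with h | h
    · exfalso
      apply hWf
      apply hsplit
      have hb : bel F W = v := bel_of_above hW
      have he : v.asIdeal.ramificationIdx' W.asIdeal ≠ 0 := by
        have : W.asIdeal.LiesOver v.asIdeal := ⟨hW.symm⟩
        exact Ideal.IsDedekindDomain.ramificationIdx'_ne_zero_of_liesOver W.asIdeal v.ne_bot
      have e2 : (p : E) = algebraMap F E (p : F) := (map_natCast (algebraMap F E) p).symm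
      rw [e2, valW, hb]
      exact pow_lt_one' h he
    · exact h
  have hφex : ∀ v : HeightOneSpectrum (𝓞 F), ∃ φ : Fˣ → ZMod p, v ∈ N →
      Hom φ ∧ (∀ x : Fˣ, LocPow p v (x : F) → φ x = 0) ∧
        (∀ y : Eˣ, φ (nrm F E y) = 0) ∧ ∃ x, φ x = 1 := by
    intro v
    by_cases hv : v ∈ N
    · obtain ⟨-, W, hW, hWf⟩ := (hN v).1 hv
      obtain ⟨φ, hφ⟩ := h4 p F E hdeg v W hW (hNp v hv) hWf
      exact ⟨φ, fun _ => hφ⟩
    · exact ⟨fun _ => 0, fun h => absurd h hv⟩
  choose φ hφ using hφex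
  -- surjectivity
  have hsurj : ∀ v ∈ N, ∃ x : Fˣ, φ v x = 1 ∧ ∀ w ∈ N, w ≠ v → φ w x = 0 := by
    intro v hv
    obtain ⟨x₀, hx₀⟩ := (hφ v hv).2.2.2
    obtain ⟨y, hy⟩ := Pool.Agent.Helper32.RDV.weakApproxUnits N
      (fun w => if w = v then x₀ else 1) (fun _ => 1) (fun _ => one_ne_zero)
    have hφy : ∀ w ∈ N, φ w y = φ w (if w = v then x₀ else 1) := by
      intro w hw
      obtain ⟨hhom, hloc, -, -⟩ := hφ w hw
      set t : Fˣ := if w = v then x₀ else 1 with ht
      have h6 := (hy w hw).2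
      have h6' : w.valuation F ((y : F) - (t : F)) < w.valuation F (t : F) := h6
      have h7 : w.valuation F (((y * t⁻¹ : Fˣ) : F) - 1) < 1 := by
        have e : ((y * t⁻¹ : Fˣ) : F) - 1 = ((y : F) - t) / t := by
          rw [Units.val_mul, Units.val_inv_eq_inv_val]
          have := t.ne_zero
          field_simp
        rw [e, map_div₀]
        exact (div_lt_one₀ (zero_lt_iff.2 ((Valuation.ne_zero_iff _).2 t.ne_zero))).2 h6'
      have h8 := hloc _ (locPow_of_sub w h7)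
      have h9 := hhom (y * t⁻¹) t
      rw [inv_mul_cancel_right, h8, zero_add] at h9
      exact h9
    refine ⟨y, ?_, ?_⟩
    · rw [hφy v hv, if_pos rfl]
      exact hx₀
    · intro w hw hne
      rw [hφy w hw, if_neg hne]
      exact hom_one (hφ w hw).1
  -- the relation
  obtain ⟨m, hm0, hm⟩ : ∃ m : N → ZMod p, m ≠ 0 ∧
      ∀ D : Finset (HeightOneSpectrum (𝓞 F)), (∀ v ∈ D, v ∈ SplZ E Z) →
        ∀ x ∈ (Z ∪ (D : Set (HeightOneSpectrum (𝓞 F)))).unit F,
          ∑ v : N, m v * φ v.1 x = 0 := by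
    by_contra hcon
    push Not at hcon
    have hDex : ∀ m : N → ZMod p, ∃ D : Finset (HeightOneSpectrum (𝓞 F)),
        (∀ v ∈ D, v ∈ SplZ E Z) ∧ (m ≠ 0 →
          ∃ x ∈ (Z ∪ (D : Set (HeightOneSpectrum (𝓞 F)))).unit F,
            ∑ v : N, m v * φ v.1 x ≠ 0) := by
      intro m
      by_cases hm : m = 0
      · exact ⟨∅, fun v hv => absurd hv (Finset.notMem_empty v), fun h => absurd hm h⟩
      · obtain ⟨D, hD, hx⟩ := hcon m hm
        exact ⟨D, hD, fun _ => hx⟩
    choose Df hDf hDx using hDex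
    obtain ⟨m, hm0, hm⟩ := exists_rel h1 h2 h3 h5 hdeg hc Z hZf hun hpr N hN φ
      (fun v hv => (hφ v hv).1) (fun v hv => (hφ v hv).2.2.1)
      ((Finset.univ : Finset (N → ZMod p)).biUnion Df) (by
        intro v hv
        rw [Finset.mem_biUnion] at hv
        obtain ⟨m', -, hv'⟩ := hv
        exact hDf m' v hv')
    obtain ⟨x, hx, hne⟩ := hDx m hm0
    apply hne
    apply hm x
    refine unit_mono (Set.union_subset_union_right Z ?_) hx
    intro v hv
    rw [Finset.mem_coe] at hv ⊢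
    rw [Finset.mem_biUnion]
    exact ⟨m, Finset.mem_univ _, hv⟩
  refine ⟨fun x => ∑ v : N, m v * φ v.1 x, ⟨?_, ?_, ?_⟩, ?_, ?_, ?_⟩
  · intro x y
    rw [← Finset.sum_add_distrib]
    refine Finset.sum_congr rfl fun v _ => ?_
    rw [(hφ v.1 v.2).1 x y, mul_add]
  · intro x hx
    refine Finset.sum_eq_zero fun v _ => ?_
    have hvZ : v.1 ∈ Z := ((hN v.1).1 v.2).1
    rw [(hφ v.1 v.2).2.1 x (hx v.1 hvZ (hNp v.1 v.2)), mul_zero]
  · intro x hx
    exact hm ∅ (fun v hv => absurd hv (Finset.notMem_empty v)) x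
      (unit_mono Set.subset_union_left hx)
  · obtain ⟨v, hv⟩ := Function.ne_iff.1 hm0
    obtain ⟨x, hx1, hx0⟩ := hsurj v.1 v.2
    refine ⟨x, ?_⟩
    show ∑ v : N, m v * φ v.1 x ≠ 0
    rw [Finset.sum_eq_single v]
    · rw [hx1, mul_one]
      exact hv
    · intro w _ hw
      rw [hx0 w.1 w.2 (fun h => hw (Subtype.ext h)), mul_zero]
    · intro h
      exact absurd (Finset.mem_univ v) h
  · intro y
    refine Finset.sum_eq_zero fun v _ => ?_
    rw [(hφ v.1 v.2).2.2.1 y, mul_zero]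
  · intro x hx
    have hDfin : {v : HeightOneSpectrum (𝓞 F) | v ∉ Z ∧ ordv v (x : F) ≠ 0}.Finite :=
      (finite_ordv (x : F) x.ne_zero).subset fun v hv => hv.2
    refine hm hDfin.toFinset ?_ x ?_
    · intro v hv
      rw [Set.Finite.mem_toFinset] at hv
      exact hx v hv.1 hv.2
    · intro v hv
      have h6 : ordv v (x : F) = 0 := by
        by_contra h7
        apply hv
        right
        rw [Set.Finite.coe_toFinset]
        exact ⟨fun h8 => hv (Or.inl h8), h7⟩
      exact (ordv_eq_zero_iff v x.ne_zero).1 h6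

end Pool.Agent.Helper74.PB
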