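import Pool.Agent.Helper76.PB.GoalsF
import Pool.Agent.Helper16.PP.PUPR
import Pool.Agent.Helper40.RD.TRF

set_option autoImplicit false

/-!
# Project B (MP_fc6b1e_nt), packet PB-XFI, part 1: the index of the norms in the units
-/

namespace Pool.Agent.Helper74.PB

open NumberField Polynomial Module IsDedekindDomain
open Pool.Agent.Helper51.RP Pool.Agent.Helper42.RD Pool.Agent.Helper42.PP
open Pool.Agent.Helper76.PB
open Pool.Agent.Helper40.RS (bel gw bel_smul val_smul)
open Pool.Agent.Helper40.RD (bel_of_above valW)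
open scoped Pointwise

section prelim

variable {F E : Type} [Field F] [NumberField F] [Field E] [NumberField E] [Algebra F E]

theorem notMem_upZ {Y : Set (HeightOneSpectrum (𝓞 F))} {W : HeightOneSpectrum (𝓞 E)} :
    W ∉ upZ E Y ↔ bel F W ∉ Y := by
  constructor
  · intro h h1
    exact h ⟨bel F W, h1, rfl⟩
  · rintro h ⟨v, hv, hW⟩
    rw [bel_of_above hW] at h
    exact h hv

theorem inc_mem {Y : Set (HeightOneSpectrum (𝓞 F))} {x : Fˣ} (hx : x ∈ Y.unit F) :
    inc F E x ∈ (upZ E Y).unit E := by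
  intro W hW
  have h1 : bel F W ∉ Y := notMem_upZ.1 hW
  have h2 : (bel F W).valuation F (x : F) = 1 := hx _ h1
  have h3 : W.valuation E (algebraMap F E x) = 1 := by
    rw [valW, h2, one_pow]
  exact h3

theorem mem_of_inc {Y : Set (HeightOneSpectrum (𝓞 F))} [IsGalois F E] {x : Fˣ}
    (hx : inc F E x ∈ (upZ E Y).unit E) : x ∈ Y.unit F := by
  intro v hv
  obtain ⟨W, hW⟩ := (Pool.Agent.Helper16.PP.p_upr 0 F E ∅).2.2.2.2.2.1 v
  have hb : bel F W = v := bel_of_above hW
  have hWY : W ∉ upZ E Y := by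
    rw [notMem_upZ, hb]
    exact hv
  have h1 : W.valuation E (algebraMap F E x) = 1 := hx W hWY
  rw [valW, hb] at h1
  have he : v.asIdeal.ramificationIdx' W.asIdeal ≠ 0 := by
    have : W.asIdeal.LiesOver v.asIdeal := ⟨hW.symm⟩
    exact Ideal.IsDedekindDomain.ramificationIdx'_ne_zero_of_liesOver W.asIdeal v.ne_bot
  exact (pow_eq_one_iff.1 h1).resolve_right he

theorem act_mem [IsGalois F E] {Y : Set (HeightOneSpectrum (𝓞 F))} (σ : E ≃ₐ[F] E) {u : Eˣ}
    (hu : u ∈ (upZ E Y).unit E) : act σ u ∈ (upZ E Y).unit E := by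
  intro W hW
  have h1 : σ • (gw σ⁻¹ W).asIdeal = W.asIdeal := by
    show σ • (σ⁻¹ • W.asIdeal) = W.asIdeal
    rw [smul_inv_smul]
  have h2 := val_smul σ (gw σ⁻¹ W) W h1 (u : E)
  have h3 : gw σ⁻¹ W ∉ upZ E Y := by
    rw [notMem_upZ, bel_smul σ⁻¹ W (gw σ⁻¹ W) rfl]
    exact notMem_upZ.1 hW
  have h4 : (gw σ⁻¹ W).valuation E (u : E) = 1 := hu _ h3
  rw [h4] at h2
  exact h2

/-- The action on the units, as an endomorphism of the additive group. -/
noncomputable def sA [IsGalois F E] (Y : Set (HeightOneSpectrum (𝓞 F))) (σ : E ≃ₐ[F] E) :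
    AddMonoid.End (Additive ((upZ E Y).unit E)) :=
  MonoidHom.toAdditive (MonoidHom.mk' (fun u : (upZ E Y).unit E =>
    (⟨act σ (u : Eˣ), act_mem σ u.2⟩ : (upZ E Y).unit E)) (by
      intro a b
      apply Subtype.ext
      exact map_mul (act σ) (a : Eˣ) (b : Eˣ)))

theorem coe_sA [IsGalois F E] (Y : Set (HeightOneSpectrum (𝓞 F))) (σ : E ≃ₐ[F] E)
    (a : Additive ((upZ E Y).unit E)) :
    (((sA Y σ a).toMul : (upZ E Y).unit E) : Eˣ) = act σ ((a.toMul : (upZ E Y).unit E) : Eˣ) := rfl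

theorem act_mul (σ τ : E ≃ₐ[F] E) (u : Eˣ) : act (σ * τ) u = act σ (act τ u) := by
  apply Units.ext
  rfl

theorem coe_sA_pow [IsGalois F E] (Y : Set (HeightOneSpectrum (𝓞 F))) (σ : E ≃ₐ[F] E) (i : ℕ)
    (a : Additive ((upZ E Y).unit E)) :
    ((((sA Y σ ^ i) a).toMul : (upZ E Y).unit E) : Eˣ) =
      act (σ ^ i) ((a.toMul : (upZ E Y).unit E) : Eˣ) := by
  induction i with
  | zero =>
    rw [pow_zero, pow_zero]
    apply Units.ext
    rfl
  | succ i ih =>
    rw [pow_succ', pow_succ', act_mul, ← ih]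
    rfl

theorem coe_sum [IsGalois F E] (Y : Set (HeightOneSpectrum (𝓞 F))) (σ : E ≃ₐ[F] E) (p : ℕ)
    (a : Additive ((upZ E Y).unit E)) :
    (((∑ i ∈ Finset.range p, (sA Y σ ^ i) a).toMul : (upZ E Y).unit E) : Eˣ) =
      ∏ i ∈ Finset.range p, act (σ ^ i) ((a.toMul : (upZ E Y).unit E) : Eˣ) := by
  have h1 : (((∑ i ∈ Finset.range p, (sA Y σ ^ i) a).toMul : (upZ E Y).unit E) : Eˣ) =
      ∏ i ∈ Finset.range p, ((((sA Y σ ^ i) a).toMul : (upZ E Y).unit E) : Eˣ) := by
    rw [toMul_sum]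
    exact map_prod ((upZ E Y).unit E).subtype _ _
  rw [h1]
  exact Finset.prod_congr rfl fun i _ => coe_sA_pow Y σ i a

/-- The norm is the product over the powers of a generator. -/
theorem norm_prod [IsGalois F E] {p : ℕ} [Fact p.Prime] (hdeg : finrank F E = p) (σ : E ≃ₐ[F] E)
    (hσ : σ ≠ 1) (u : Eˣ) :
    inc F E (nrm F E u) = ∏ i ∈ Finset.range p, act (σ ^ i) u := by
  have hcard : Nat.card (E ≃ₐ[F] E) = p := by
    rw [IsGalois.card_aut_eq_finrank, hdeg]
  have hord : orderOf σ = p := by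
    apply orderOf_eq_prime _ hσ
    rw [← hcard]
    exact pow_card_eq_one'
  have h1 : algebraMap F E (Algebra.norm F (u : E)) = ∏ g : E ≃ₐ[F] E, g (u : E) :=
    Algebra.norm_eq_prod_automorphisms F (u : E)
  have h2 : ∏ g : E ≃ₐ[F] E, g (u : E) = ∏ i ∈ Finset.range p, (σ ^ i) (u : E) := by
    symm
    refine Finset.prod_nbij (fun i => σ ^ i) (fun i _ => Finset.mem_univ _) ?_ ?_
      (fun i _ => rfl)
    · intro i hi j hj hij
      rw [Finset.coe_range, Set.mem_Iio] at hi hj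
      have h3 := pow_injOn_Iio_orderOf (x := σ)
      exact h3 (by rw [Set.mem_Iio, hord]; exact hi) (by rw [Set.mem_Iio, hord]; exact hj) hij
    · intro g _
      obtain ⟨n, hn⟩ := mem_powers_of_prime_card (p := p) hcard (g := σ) (g' := g) hσ
      refine ⟨n % p, ?_, ?_⟩
      · rw [Finset.coe_range, Set.mem_Iio]
        exact Nat.mod_lt _ (Fact.out : p.Prime).pos
      · show σ ^ (n % p) = g
        rw [← hord, pow_mod_orderOf]
        exact hn
  apply Units.ext
  have h3 : ((inc F E (nrm F E u) : Eˣ) : E) = algebraMap F E (Algebra.norm F (u : E)) := rfl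
  have h4 : ((∏ i ∈ Finset.range p, act (σ ^ i) u : Eˣ) : E) =
      ∏ i ∈ Finset.range p, (σ ^ i) (u : E) := by
    rw [Units.coe_prod]
    rfl
  rw [h3, h4, h1, h2]

theorem inc_inj {x y : Fˣ} (h : inc F E x = inc F E y) : x = y := by
  apply Units.ext
  have h1 := congrArg (fun u : Eˣ => (u : E)) h
  exact (algebraMap F E).injective h1

/-- The number of infinite places. -/
theorem card_inf [IsGalois F E] {p : ℕ} [Fact p.Prime] (hdeg : finrank F E = p)
    (hc : p = 2 → IsTotallyComplex F) :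
    Units.rank E + 1 = p * (Units.rank F + 1) := by
  have hun : IsUnramifiedAtInfinitePlaces F E := by
    rcases (Fact.out : p.Prime).eq_two_or_odd' with h | h
    · have := hc h
      refine ⟨fun w => ?_⟩
      rw [InfinitePlace.isUnramified_iff]
      right
      exact IsTotallyComplex.isComplex _
    · apply IsUnramifiedAtInfinitePlaces_of_odd_finrank
      rw [hdeg]
      exact h
  have h1 := IsUnramifiedAtInfinitePlaces.card_infinitePlace F E
  rw [hdeg] at h1
  have h2 : 0 < Fintype.card (InfinitePlace F) := Fintype.card_pos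
  have h3 : 0 < Fintype.card (InfinitePlace E) := Fintype.card_pos
  unfold Units.rank
  rw [Nat.sub_add_cancel h2, Nat.sub_add_cancel h3, h1, mul_comm]

end prelim

section main

variable {F E : Type} [Field F] [NumberField F] [Field E] [NumberField E] [Algebra F E]
    [IsGalois F E]

/-- The inclusion of the units. -/
noncomputable def iA (F : Type) {E : Type} [Field F] [NumberField F] [Field E] [NumberField E]
    [Algebra F E] (Y : Set (HeightOneSpectrum (𝓞 F))) :
    Additive (Y.unit F) →+ Additive ((upZ E Y).unit E) :=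
  MonoidHom.toAdditive (MonoidHom.mk' (fun u : Y.unit F =>
    (⟨inc F E (u : Fˣ), inc_mem u.2⟩ : (upZ E Y).unit E)) (by
      intro a b
      apply Subtype.ext
      exact map_mul (inc F E) (a : Fˣ) (b : Fˣ)))

theorem coe_iA (Y : Set (HeightOneSpectrum (𝓞 F))) (a : Additive (Y.unit F)) :
    (((iA F (E := E) Y a).toMul : (upZ E Y).unit E) : Eˣ) = inc F E ((a.toMul : Y.unit F) : Fˣ) :=
  rfl

theorem iA_inj (Y : Set (HeightOneSpectrum (𝓞 F))) :
    Function.Injective (iA F (E := E) Y) := by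
  intro a b h
  have h1 : inc F E ((a.toMul : Y.unit F) : Fˣ) = inc F E ((b.toMul : Y.unit F) : Fˣ) := by
    rw [← coe_iA (E := E), ← coe_iA (E := E), h]
  have h2 := inc_inj h1
  have h3 : a.toMul = b.toMul := Subtype.ext h2
  exact Additive.toMul.injective h3

/-- The index of the norms of the units. -/
theorem unit_idx (h1 : X_HQ) (h2 : X_RKS) (h3 : X_H90) (h5 : X_SPC) {p : ℕ} [Fact p.Prime]
    (hdeg : finrank F E = p) (hc : p = 2 → IsTotallyComplex F)
    (Y : Set (HeightOneSpectrum (𝓞 F))) (hYf : Y.Finite) (hun : UnrZ F E Y) (hpr : PrZ F Y) :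
    ∃ NU : AddSubgroup (Additive (Y.unit F)),
      NU.index * p = p ^ {v | v ∈ Y ∧ ∃ W : HeightOneSpectrum (𝓞 E), Above W v ∧
        ¬ FreeP F W}.ncard ∧
      ∀ a ∈ NU, ∃ u : Eˣ, nrm F E u = ((a.toMul : Y.unit F) : Fˣ) := by
  have hp : p.Prime := Fact.out
  have hcard : Nat.card (E ≃ₐ[F] E) = p := by
    rw [IsGalois.card_aut_eq_finrank, hdeg]
  obtain ⟨σ, hσ⟩ : ∃ σ : E ≃ₐ[F] E, σ ≠ 1 := by
    have : Nontrivial (E ≃ₐ[F] E) := by
      rw [← Finite.one_lt_card_iff_nontrivial, hcard]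
      exact hp.one_lt
    exact exists_ne 1
  have hgen : ∀ g : E ≃ₐ[F] E, ∃ n : ℕ, g = σ ^ n := by
    intro g
    obtain ⟨n, hn⟩ := mem_powers_of_prime_card (p := p) hcard (g := σ) (g' := g) hσ
    exact ⟨n, hn.symm⟩
  have hσp : σ ^ p = 1 := by
    rw [← hcard]
    exact pow_card_eq_one'
  obtain ⟨hup, hcnt⟩ := (h5 p F E hdeg).2 Y hYf
  obtain ⟨hfinE, hrkE⟩ := h2 E (upZ E Y) hup
  obtain ⟨hfinF, hrkF⟩ := h2 F Y hYf
  set A := Additive ((upZ E Y).unit E) with hA
  set s : AddMonoid.End A := sA Y σ with hs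
  have hnc : ∀ a : A, (((∑ i ∈ Finset.range p, (s ^ i) a).toMul : (upZ E Y).unit E) : Eˣ) =
      inc F E (nrm F E ((a.toMul : (upZ E Y).unit E) : Eˣ)) := by
    intro a
    rw [hs, coe_sum, norm_prod hdeg σ hσ]
  have hext : ∀ a b : A, ((a.toMul : (upZ E Y).unit E) : Eˣ) = ((b.toMul : (upZ E Y).unit E) : Eˣ) →
      a = b := by
    intro a b h
    have h4 : a.toMul = b.toMul := Subtype.ext h
    exact Additive.toMul.injective h4
  have hsp : s ^ p = 1 := by
    apply AddMonoidHom.ext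
    intro a
    apply hext
    refine (coe_sA_pow Y σ p a).trans ?_
    rw [hσp]
    apply Units.ext
    rfl
  have h90 : ∀ a : A, ∑ i ∈ Finset.range p, (s ^ i) a = 0 → ∃ b, a = s b - b := by
    intro a ha
    have h4 : nrm F E ((a.toMul : (upZ E Y).unit E) : Eˣ) = 1 := by
      apply inc_inj (E := E)
      rw [← hnc a, ha, map_one]
      rfl
    obtain ⟨y, hy, hyu⟩ := h3 F E Y hun hpr σ hgen ((a.toMul : (upZ E Y).unit E) : Eˣ)
      a.toMul.2 h4
    refine ⟨Additive.ofMul ⟨y, hy⟩, ?_⟩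
    apply hext
    rw [hyu]
    rfl
  set A₀ : AddSubgroup A := (iA F (E := E) Y).range with hA₀
  have hmem : ∀ a, a ∈ A₀ ↔ s a = a := by
    intro a
    constructor
    · rintro ⟨x, rfl⟩
      apply hext
      rw [hs, coe_sA, coe_iA]
      apply Units.ext
      exact σ.commutes _
    · intro h
      have h4 : σ (((a.toMul : (upZ E Y).unit E) : Eˣ) : E) =
          (((a.toMul : (upZ E Y).unit E) : Eˣ) : E) := by
        have h6 := congrArg (fun b : A => (((b.toMul : (upZ E Y).unit E) : Eˣ) : E)) h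
        exact h6
      have h6 : ∀ n : ℕ, (σ ^ n) (((a.toMul : (upZ E Y).unit E) : Eˣ) : E) =
          (((a.toMul : (upZ E Y).unit E) : Eˣ) : E) := by
        intro n
        induction n with
        | zero => rfl
        | succ n ih =>
          rw [pow_succ, AlgEquiv.mul_apply, h4, ih]
      obtain ⟨x, hx⟩ := (IsGalois.mem_range_algebraMap_iff_fixed
        (((a.toMul : (upZ E Y).unit E) : Eˣ) : E)).2 (fun g => by
          obtain ⟨n, rfl⟩ := hgen g
          exact h6 n)
      have hx0 : x ≠ 0 := by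
        rintro rfl
        rw [map_zero] at hx
        exact ((a.toMul : (upZ E Y).unit E) : Eˣ).ne_zero hx.symm
      have h7 : inc F E (Units.mk0 x hx0) = ((a.toMul : (upZ E Y).unit E) : Eˣ) := by
        apply Units.ext
        exact hx
      have h8 : Units.mk0 x hx0 ∈ Y.unit F := by
        apply mem_of_inc (E := E)
        rw [h7]
        exact a.toMul.2
      refine ⟨Additive.ofMul ⟨Units.mk0 x hx0, h8⟩, ?_⟩
      apply hext
      exact h7
  set NA : AddSubgroup A := AddMonoidHom.range (∑ i ∈ Finset.range p, (s ^ i : A →+ A)) with hNA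
  have hNAm : ∀ a, a ∈ NA ↔ ∃ b, a = ∑ i ∈ Finset.range p, (s ^ i) b := by
    intro a
    rw [hNA, AddMonoidHom.mem_range]
    constructor
    · rintro ⟨b, hb⟩
      refine ⟨b, ?_⟩
      rw [← hb, AddMonoidHom.finsetSum_apply]
      rfl
    · rintro ⟨b, hb⟩
      refine ⟨b, ?_⟩
      rw [hb, AddMonoidHom.finsetSum_apply]
      rfl
  have hq := h1 p A s hsp h90 A₀ NA hmem hNAm
  have hrk0 : finrank ℤ A₀ = finrank ℤ (Additive (Y.unit F)) := by
    have e : Additive (Y.unit F) ≃+ A₀ := AddMonoidHom.ofInjective (iA_inj (E := E) Y)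
    exact (LinearEquiv.finrank_eq e.toIntLinearEquiv).symm
  refine ⟨NA.comap (iA F (E := E) Y), ?_, ?_⟩
  · rw [AddSubgroup.index_comap, ← hA₀]
    rw [hrk0, hrkF, hrkE] at hq
    have hinf := card_inf (E := E) hdeg hc
    set k := {v | v ∈ Y ∧ ∃ W : HeightOneSpectrum (𝓞 E), Above W v ∧ ¬ FreeP F W}.ncard with hk
    set I := NA.relIndex A₀ with hI
    have hp1 : p - 1 ≠ 0 := by
      have := hp.two_le
      omega
    have h6 : (I * p) ^ (p - 1) * p ^ (Units.rank E + (upZ E Y).ncard) =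
        (p ^ k) ^ (p - 1) * p ^ (Units.rank E + (upZ E Y).ncard) := by
      rw [mul_pow, mul_right_comm, hq, ← pow_add, ← pow_mul, ← pow_add]
      congr 1
      have h7 : 1 ≤ p := hp.one_lt.le
      obtain ⟨p', rfl⟩ : ∃ p', p = p' + 1 := ⟨p - 1, by omega⟩
      rw [Nat.add_sub_cancel] at hcnt ⊢
      nlinarith
    have h8 : (I * p) ^ (p - 1) = (p ^ k) ^ (p - 1) :=
      Nat.eq_of_mul_eq_mul_right (pow_pos hp.pos _) h6
    exact Nat.pow_left_injective hp1 h8
  · intro a ha
    rw [AddSubgroup.mem_comap] at ha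
    obtain ⟨b, hb⟩ := (hNAm _).1 ha
    refine ⟨((b.toMul : (upZ E Y).unit E) : Eˣ), ?_⟩
    apply inc_inj (E := E)
    rw [← hnc b, ← hb]
    rfl

end main

end Pool.Agent.Helper74.PB
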